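import Mathlib
import Pool.Agent.Q151.OG.Stm

/-!
# Generating function of the complement of an upper set of monomials (project OG, job EXB)
-/

set_option autoImplicit false

namespace Pool.Agent.Q153.OG

open Q151.OG
open MvPowerSeries (coeff)

variable {σ ι : Type}

/-- monomials of weight `μ` in `A` -/
def slice (w : σ → (ι →₀ ℕ)) (A : Set (σ →₀ ℕ)) (μ : ι →₀ ℕ) : Set (σ →₀ ℕ) :=
  {m | Finsupp.weight w m = μ ∧ m ∈ A}

theorem fin_all [Finite σ] (w : σ → (ι →₀ ℕ)) (hw : ∀ s, w s ≠ 0) (μ : ι →₀ ℕ) :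
    {m : σ →₀ ℕ | Finsupp.weight w m = μ}.Finite := by
  classical
  have h1 : ∀ s, (w s).degree ≠ 0 := fun s h => hw s ((Finsupp.degree_eq_zero_iff _).1 h)
  refine (Finsupp.finite_of_nat_weight_le (fun s => (w s).degree) h1 μ.degree).subset ?_
  intro m hm
  have hm' : Finsupp.weight w m = μ := hm
  show Finsupp.weight (fun s => (w s).degree) m ≤ μ.degree
  refine le_of_eq ?_
  rw [← hm', Finsupp.weight_apply, Finsupp.weight_apply, Finsupp.sum, Finsupp.sum, map_sum]
  exact Finset.sum_congr rfl fun s _ => by rw [map_nsmul]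

theorem fin_slice [Finite σ] (w : σ → (ι →₀ ℕ)) (hw : ∀ s, w s ≠ 0) (A : Set (σ →₀ ℕ))
    (μ : ι →₀ ℕ) : (slice w A μ).Finite :=
  (fin_all w hw μ).subset fun _ h => h.1

/-- the generating function of a set of monomials -/
noncomputable def aser (w : σ → (ι →₀ ℕ)) (A : Set (σ →₀ ℕ)) : MvPowerSeries ι ℤ :=
  fun μ => ((slice w A μ).ncard : ℤ)

theorem coeff_aser (w : σ → (ι →₀ ℕ)) (A : Set (σ →₀ ℕ)) (μ : ι →₀ ℕ) :
    coeff μ (aser w A) = ((slice w A μ).ncard : ℤ) := rfl

theorem cser_eq (w : σ → (ι →₀ ℕ)) (U : Set (σ →₀ ℕ)) : cser w U = aser w Uᶜ := rfl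

theorem aser_sum [Finite σ] (w : σ → (ι →₀ ℕ)) (hw : ∀ s, w s ≠ 0) (A : Set (σ →₀ ℕ))
    [DecidablePred (· ∈ A)] (μ : ι →₀ ℕ) :
    coeff μ (aser w A) = ∑ m ∈ (fin_all w hw μ).toFinset, if m ∈ A then (1 : ℤ) else 0 := by
  classical
  rw [coeff_aser, Finset.sum_boole, Set.ncard_eq_toFinset_card _ (fin_slice w hw A μ)]
  congr 2
  ext m
  simp [slice]

theorem aser_shift [Finite σ] (w : σ → (ι →₀ ℕ)) (g : σ →₀ ℕ) (A : Set (σ →₀ ℕ)) :
    aser w ((fun m => g + m) '' A) =
      MvPowerSeries.monomial (Finsupp.weight w g) (1 : ℤ) * aser w A := by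
  classical
  ext μ
  rw [MvPowerSeries.coeff_monomial_mul, coeff_aser]
  split_ifs with h
  · rw [one_mul, coeff_aser]
    have h1 : slice w ((fun m => g + m) '' A) μ =
        (fun m => g + m) '' slice w A (μ - Finsupp.weight w g) := by
      ext m
      constructor
      · rintro ⟨h1, m', hm', rfl⟩
        refine ⟨m', ⟨?_, hm'⟩, rfl⟩
        rw [← h1]
        simp only [map_add]
        rw [add_tsub_cancel_left]
      · rintro ⟨m', ⟨h1, h2⟩, rfl⟩
        refine ⟨?_, m', h2, rfl⟩
        simp only [map_add]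
        rw [h1]
        exact add_tsub_cancel_of_le h
    rw [h1, Set.ncard_image_of_injective _ (fun a b h => add_left_cancel h)]
  · have h1 : slice w ((fun m => g + m) '' A) μ = ∅ := by
      rw [Set.eq_empty_iff_forall_notMem]
      rintro m ⟨h1, m', -, rfl⟩
      apply h
      rw [← h1]
      simp only [map_add]
      exact le_self_add
    rw [h1, Set.ncard_empty]
    simp

theorem aser_union [Finite σ] (w : σ → (ι →₀ ℕ)) (hw : ∀ s, w s ≠ 0) (A B : Set (σ →₀ ℕ))
    (hAB : Disjoint A B) : aser w (A ∪ B) = aser w A + aser w B := by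
  classical
  ext μ
  rw [map_add, coeff_aser, coeff_aser, coeff_aser]
  have h1 : slice w (A ∪ B) μ = slice w A μ ∪ slice w B μ := by
    ext m
    simp only [slice, Set.mem_union, Set.mem_ofPred_eq]
    tauto
  rw [h1, Set.ncard_union_eq _ (fin_slice w hw A μ) (fin_slice w hw B μ)]
  · push_cast
    ring
  · rw [Set.disjoint_left] at hAB ⊢
    rintro m ⟨-, h2⟩ ⟨-, h3⟩
    exact hAB h2 h3

/-- the monomials in the variables of `t` -/
def inVars (t : Finset σ) : Set (σ →₀ ℕ) := {m | m.support ⊆ t}

theorem inVars_insert [DecidableEq σ] (t : Finset σ) (s : σ) (hs : s ∉ t) :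
    inVars (insert s t) = inVars t ∪ (fun m => Finsupp.single s 1 + m) '' inVars (insert s t) := by
  ext m
  constructor
  · intro hm
    by_cases h : m s = 0
    · left
      intro i hi
      have h1 := hm hi
      rcases Finset.mem_insert.1 h1 with rfl | h2
      · exact absurd h (Finsupp.mem_support_iff.1 hi)
      · exact h2
    · right
      have hle : Finsupp.single s 1 ≤ m := by
        rw [Finsupp.single_le_iff]
        omega
      refine ⟨m - Finsupp.single s 1, ?_, add_tsub_cancel_of_le hle⟩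
      intro i hi
      apply hm
      rw [Finsupp.mem_support_iff] at hi ⊢
      intro h0
      apply hi
      rw [Finsupp.tsub_apply, h0, zero_tsub]
  · rintro (hm | ⟨m', hm', rfl⟩)
    · exact fun i hi => Finset.mem_insert_of_mem (hm hi)
    · intro i hi
      by_cases h : i = s
      · rw [h]; exact Finset.mem_insert_self s t
      · apply hm'
        rw [Finsupp.mem_support_iff] at hi ⊢
        intro h0
        apply hi
        rw [Finsupp.add_apply, h0, Finsupp.single_eq_of_ne h, add_zero]

theorem aser_vars [Finite σ] (w : σ → (ι →₀ ℕ)) (hw : ∀ s, w s ≠ 0) (t : Finset σ) :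
    aser w (inVars t) * ∏ s ∈ t, (1 - MvPowerSeries.monomial (w s) (1 : ℤ)) = 1 := by
  classical
  induction t using Finset.induction_on with
  | empty =>
    rw [Finset.prod_empty, mul_one]
    ext μ
    rw [coeff_aser, MvPowerSeries.coeff_one]
    have h0 : inVars (∅ : Finset σ) = {0} := by
      ext m
      simp [inVars, Finset.subset_empty]
    rw [h0]
    split_ifs with h
    · have h1 : slice w {0} μ = {0} := by
        ext m
        simp only [slice, Set.mem_ofPred_eq, Set.mem_singleton_iff]
        constructor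
        · exact fun h => h.2
        · rintro rfl
          exact ⟨by rw [map_zero, h], rfl⟩
      rw [h1, Set.ncard_singleton]
      rfl
    · have h1 : slice w {0} μ = ∅ := by
        rw [Set.eq_empty_iff_forall_notMem]
        rintro m ⟨h1, h2⟩
        rw [Set.mem_singleton_iff] at h2
        subst h2
        rw [map_zero] at h1
        exact h h1.symm
      rw [h1, Set.ncard_empty]
      rfl
  | insert s t hs ih =>
    have h1 : aser w (inVars (insert s t)) = aser w (inVars t) +
        MvPowerSeries.monomial (w s) (1 : ℤ) * aser w (inVars (insert s t)) := by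
      conv_lhs => rw [inVars_insert t s hs]
      rw [aser_union w hw, aser_shift]
      · rw [Finsupp.weight_single, one_smul]
      · rw [Set.disjoint_left]
        rintro m hm ⟨m', -, rfl⟩
        apply hs
        apply hm
        rw [Finsupp.mem_support_iff]
        simp only [Finsupp.add_apply, Finsupp.single_eq_same]
        omega
    rw [Finset.prod_insert hs, ← mul_assoc]
    have h2 : aser w (inVars (insert s t)) * (1 - MvPowerSeries.monomial (w s) (1 : ℤ)) =
        aser w (inVars t) := by
      rw [mul_sub, mul_one]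
      nth_rewrite 1 [h1]
      ring
    rw [h2, ih]

theorem aser_Ici [Fintype σ] (w : σ → (ι →₀ ℕ)) (hw : ∀ s, w s ≠ 0) (g : σ →₀ ℕ) :
    aser w (Set.Ici g) * ((den w : MvPolynomial ι ℤ) : MvPowerSeries ι ℤ) =
      ((MvPolynomial.monomial (Finsupp.weight w g) (1 : ℤ) : MvPolynomial ι ℤ) :
        MvPowerSeries ι ℤ) := by
  classical
  have h0 : Set.Ici g = (fun m => g + m) '' inVars (Finset.univ : Finset σ) := by
    ext m
    constructor
    · intro hm
      exact ⟨m - g, Finset.subset_univ _, add_tsub_cancel_of_le hm⟩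
    · rintro ⟨m', -, rfl⟩
      show g ≤ g + m'
      exact le_self_add
  have h1 : ((den w : MvPolynomial ι ℤ) : MvPowerSeries ι ℤ) =
      ∏ s : σ, (1 - MvPowerSeries.monomial (w s) (1 : ℤ)) := by
    rw [den, ← MvPolynomial.coeToMvPowerSeries.ringHom_apply, map_prod]
    refine Finset.prod_congr rfl fun s _ => ?_
    rw [map_sub, map_one, MvPolynomial.coeToMvPowerSeries.ringHom_apply, MvPolynomial.coe_monomial]
  rw [h0, aser_shift, h1, mul_assoc, aser_vars w hw, mul_one, MvPolynomial.coe_monomial]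

theorem exb : S_EXB := by
  classical
  intro σ ι _ w hw U hU
  -- the minimal elements
  have hpwo := Set.isPWO_of_wellQuasiOrderedLE U
  have hfin : {m | Minimal (· ∈ U) m}.Finite :=
    (setOfPred_minimal_antichain _).finite_of_partiallyWellOrderedOn
      (hpwo.mono (setOfPred_minimal_subset _))
  set G : Finset (σ →₀ ℕ) := hfin.toFinset with hG
  have hmem : ∀ m, m ∉ U ↔ ∀ g ∈ G, ¬ g ≤ m := by
    intro m
    constructor
    · intro hm g hg hgm
      rw [hG, Set.Finite.mem_toFinset] at hg
      exact hm (hU hgm hg.prop)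
    · intro h hm
      obtain ⟨g, hgm, hg⟩ := hpwo.exists_le_minimal hm
      exact h g (by rw [hG, Set.Finite.mem_toFinset]; exact hg) hgm
  have hind : ∀ m, (if m ∈ Uᶜ then (1 : ℤ) else 0) =
      ∑ t ∈ G.powerset, (-1) ^ t.card * (if m ∈ Set.Ici (t.sup id) then (1 : ℤ) else 0) := by
    intro m
    have h1 : (if m ∈ Uᶜ then (1 : ℤ) else 0) =
        ∏ g ∈ G, ((-1) * (if g ≤ m then (1 : ℤ) else 0) + 1) := by
      split_ifs with h
      · rw [Finset.prod_eq_one]
        intro g hg
        rw [if_neg ((hmem m).1 h g hg)]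
        ring
      · rw [Set.mem_compl_iff, not_not] at h
        have h2 : ¬ ∀ g ∈ G, ¬ g ≤ m := fun h' => (hmem m).2 h' h
        push Not at h2
        obtain ⟨g, hg, hgm⟩ := h2
        rw [Finset.prod_eq_zero hg]
        rw [if_pos hgm]
        ring
    rw [h1, Finset.prod_add]
    refine Finset.sum_congr rfl fun t _ => ?_
    rw [Finset.prod_const_one, mul_one, Finset.prod_mul_distrib, Finset.prod_const]
    congr 1
    have h2 : m ∈ Set.Ici (t.sup id) ↔ ∀ g ∈ t, g ≤ m := by
      rw [Set.mem_Ici, Finset.sup_le_iff]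
      rfl
    split_ifs with h
    · exact Finset.prod_eq_one fun g hg => if_pos (h2.1 h g hg)
    · have h3 : ¬ ∀ g ∈ t, g ≤ m := fun h' => h (h2.2 h')
      push Not at h3
      obtain ⟨g, hg, hgm⟩ := h3
      exact Finset.prod_eq_zero hg (if_neg hgm)
  have hser : cser w U = ∑ t ∈ G.powerset, ((-1) ^ t.card : ℤ) • aser w (Set.Ici (t.sup id)) := by
    rw [cser_eq]
    ext μ
    rw [aser_sum w hw, map_sum]
    simp only [hind]
    rw [Finset.sum_comm]
    refine Finset.sum_congr rfl fun t _ => ?_
    rw [map_zsmul, aser_sum w hw, smul_eq_mul, Finset.mul_sum]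
  refine ⟨∑ t ∈ G.powerset, ((-1) ^ t.card : ℤ) •
    MvPolynomial.monomial (Finsupp.weight w (t.sup id)) (1 : ℤ), ?_⟩
  rw [hser, Finset.sum_mul, ← MvPolynomial.coeToMvPowerSeries.ringHom_apply, map_sum]
  refine Finset.sum_congr rfl fun t _ => ?_
  rw [map_zsmul, MvPolynomial.coeToMvPowerSeries.ringHom_apply, smul_mul_assoc,
    aser_Ici w hw]

end Pool.Agent.Q153.OG
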