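import Mathlib
import Pool.Agent.Q151.OG.Stm

/-!
# Rank conditions and Schur complements (project OG, job SCH)
-/

set_option autoImplicit false

namespace Pool.Agent.Q153.OG

open Q151.OG

/-- rank of a matrix with a nonzero corner entry -/
theorem rank_option {m n : Type} [Fintype m] [Fintype n] (A : Matrix (Option m) (Option n) ℂ)
    (a : ℂ) (ha : a ≠ 0) (hA : A none none = a) :
    A.rank = (Matrix.of fun (i : m) (j : n) =>
      A (some i) (some j) - A (some i) none * A none (some j) / a).rank + 1 := by
  classical
  set S : Matrix m n ℂ := Matrix.of fun (i : m) (j : n) =>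
      A (some i) (some j) - A (some i) none * A none (some j) / a with hS
  have hmem : ∀ f : Option n → ℂ, f ∈ LinearMap.ker A.mulVecLin ↔
      ∀ i, A i none * f none + ∑ j, A i (some j) * f (some j) = 0 := by
    intro f
    rw [LinearMap.mem_ker, Matrix.mulVecLin_apply, funext_iff]
    refine forall_congr' fun i => ?_
    rw [Matrix.mulVec, dotProduct, Fintype.sum_option]
    rfl
  have hmemS : ∀ v : n → ℂ, v ∈ LinearMap.ker S.mulVecLin ↔
      ∀ i, ∑ j, (A (some i) (some j) - A (some i) none * A none (some j) / a) * v j = 0 := by
    intro v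
    rw [LinearMap.mem_ker, Matrix.mulVecLin_apply, funext_iff]
    rfl
  have hexp : ∀ (v : n → ℂ) (i : m),
      ∑ j, (A (some i) (some j) - A (some i) none * A none (some j) / a) * v j =
      A (some i) none * (-(∑ j, A none (some j) * v j) / a) + ∑ j, A (some i) (some j) * v j := by
    intro v i
    have h1 : A (some i) none * (-(∑ j, A none (some j) * v j) / a) =
        ∑ j, -(A (some i) none * A none (some j) / a * v j) := by
      rw [Finset.sum_neg_distrib, neg_div, mul_neg, Finset.sum_div, Finset.mul_sum]
      congr 1
      exact Finset.sum_congr rfl fun j _ => by ring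
    rw [h1, ← Finset.sum_add_distrib]
    exact Finset.sum_congr rfl fun j _ => by ring
  let e : LinearMap.ker A.mulVecLin ≃ₗ[ℂ] LinearMap.ker S.mulVecLin :=
    { toFun := fun f => ⟨fun j => f.1 (some j), by
        rw [hmemS]
        intro i
        have h0 := (hmem f.1).1 f.2 none
        have h1 := (hmem f.1).1 f.2 (some i)
        rw [hA] at h0
        have h2 : f.1 none = -(∑ j, A none (some j) * f.1 (some j)) / a := by
          field_simp
          linear_combination h0
        rw [hexp, ← h2]
        exact h1⟩
      invFun := fun v => ⟨fun o => Option.elim o (-(∑ j, A none (some j) * v.1 j) / a) v.1, by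
        rw [hmem]
        intro i
        cases i with
        | none =>
          show A none none * (-(∑ j, A none (some j) * v.1 j) / a) +
            ∑ j, A none (some j) * v.1 j = 0
          rw [hA]
          field_simp
          ring
        | some i =>
          show A (some i) none * (-(∑ j, A none (some j) * v.1 j) / a) +
            ∑ j, A (some i) (some j) * v.1 j = 0
          rw [← hexp]
          exact (hmemS v.1).1 v.2 i⟩
      left_inv := by
        intro f
        apply Subtype.ext
        funext o
        cases o with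
        | none =>
          show -(∑ j, A none (some j) * f.1 (some j)) / a = f.1 none
          have h0 := (hmem f.1).1 f.2 none
          rw [hA] at h0
          field_simp
          linear_combination -h0
        | some j => rfl
      right_inv := fun v => rfl
      map_add' := fun f g => rfl
      map_smul' := fun c f => rfl }
  have h1 := LinearMap.finrank_range_add_finrank_ker A.mulVecLin
  have h2 := LinearMap.finrank_range_add_finrank_ker S.mulVecLin
  have h3 := e.finrank_eq
  rw [Module.finrank_fintype_fun_eq_card] at h1 h2
  rw [Fintype.card_option] at h1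
  rw [Matrix.rank, Matrix.rank]
  omega

/-- the embedding of the indices of a smaller corner -/
def gIdx {N : ℕ} (i : ℕ) : Option {a : Fin N // a.1 < i} → {a : Fin (N + 1) // a.1 < i + 1}
  | none => ⟨0, Nat.succ_pos i⟩
  | some k => ⟨k.1.succ, by
      have := k.2
      rw [Fin.val_succ]
      omega⟩

theorem gIdx_bij {N : ℕ} (i : ℕ) : Function.Bijective (gIdx (N := N) i) := by
  constructor
  · intro x y h
    cases x with
    | none =>
      cases y with
      | none => rfl
      | some y =>
        have h1 := congrArg (fun t => t.1) h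
        exact absurd h1 (Fin.succ_ne_zero y.1).symm
    | some x =>
      cases y with
      | none =>
        have h1 := congrArg (fun t => t.1) h
        exact absurd h1 (Fin.succ_ne_zero x.1)
      | some y =>
        have h1 := congrArg (fun t => t.1) h
        have h2 : x.1 = y.1 := Fin.succ_injective _ h1
        rw [Subtype.ext h2]
  · rintro ⟨a, ha⟩
    induction a using Fin.cases with
    | zero => exact ⟨none, rfl⟩
    | succ k =>
      rw [Fin.val_succ] at ha
      exact ⟨some ⟨k, by omega⟩, rfl⟩

/-- the Schur complement of the entry `(0, 0)` of a matrix -/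
noncomputable def schM {N : ℕ} (A : Matrix (Fin (N + 1)) (Fin (N + 1)) ℂ) :
    Matrix (Fin N) (Fin N) ℂ :=
  Matrix.of fun i j => A i.succ j.succ - A i.succ 0 * A 0 j.succ / A 0 0

theorem rank_corner {N : ℕ} (A : Matrix (Fin (N + 1)) (Fin (N + 1)) ℂ) (h0 : A 0 0 ≠ 0)
    (i j : ℕ) : (corner A (i + 1) (j + 1)).rank = (corner (schM A) i j).rank + 1 := by
  have h1 : ((corner A (i + 1) (j + 1)).submatrix (Equiv.ofBijective _ (gIdx_bij i))
      (Equiv.ofBijective _ (gIdx_bij j))).rank = (corner A (i + 1) (j + 1)).rank :=
    Matrix.rank_submatrix _ _ _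
  rw [← h1, rank_option _ (A 0 0) h0 rfl]
  rfl

theorem rank_corner_zero_left {N : ℕ} (A : Matrix (Fin N) (Fin N) ℂ) (j : ℕ) :
    (corner A 0 j).rank = 0 := by
  have h1 := Matrix.rank_le_card_height (corner A 0 j)
  have h2 : Fintype.card {a : Fin N // a.1 < 0} = 0 := by
    rw [Fintype.card_eq_zero_iff]
    exact ⟨fun a => absurd a.2 (Nat.not_lt_zero _)⟩
  omega

theorem rank_corner_zero_right {N : ℕ} (A : Matrix (Fin N) (Fin N) ℂ) (i : ℕ) :
    (corner A i 0).rank = 0 := by
  have h1 := Matrix.rank_le_card_width (corner A i 0)
  have h2 : Fintype.card {a : Fin N // a.1 < 0} = 0 := by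
    rw [Fintype.card_eq_zero_iff]
    exact ⟨fun a => absurd a.2 (Nat.not_lt_zero _)⟩
  omega

theorem schM_perm {N : ℕ} (z : Equiv.Perm (Fin N)) :
    schM ((ext z).permMatrix ℂ) = z.permMatrix ℂ ∧ (ext z).permMatrix ℂ 0 0 = 1 := by
  have h0 : ext z 0 = 0 := by
    rw [ext, Equiv.Perm.decomposeFin_symm_apply_zero]
  have hs : ∀ i : Fin N, ext z i.succ = (z i).succ := by
    intro i
    rw [ext, Equiv.Perm.decomposeFin_symm_apply_succ, Equiv.swap_self]
    rfl
  constructor
  · ext i j
    simp only [schM, Matrix.of_apply, Equiv.Perm.permMatrix, PEquiv.toMatrix_apply,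
      Equiv.toPEquiv_apply, h0, hs, Option.mem_some_iff]
    have h1 : (0 : Fin (N + 1)) ≠ j.succ := (Fin.succ_ne_zero j).symm
    rw [if_neg h1, mul_zero, zero_div, sub_zero]
    simp only [Fin.succ_inj]
  · simp [Equiv.Perm.permMatrix, PEquiv.toMatrix_apply, h0]

theorem schM_blow {N : ℕ} (a : ℂ) (ha : a ≠ 0) (u : Fin N → ℂ) (y : Sym2 (Fin N) → ℂ) :
    schM (mat (blow a u y)) = mat y ∧ mat (blow a u y) 0 0 = a := by
  constructor
  · ext i j
    show (y s(i, j) + u i * u j / a) - u i * u j / a = y s(i, j)
    ring
  · rfl

theorem sch : S_SCH := by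
  intro N z a u y ha
  obtain ⟨hb1, hb2⟩ := schM_blow a ha u y
  obtain ⟨hp1, hp2⟩ := schM_perm z
  have hb0 : mat (blow a u y) 0 0 ≠ 0 := by rw [hb2]; exact ha
  have hp0 : (ext z).permMatrix ℂ 0 0 ≠ 0 := by rw [hp2]; exact one_ne_zero
  constructor
  · intro h i j
    have h1 := h (i + 1) (j + 1)
    rw [rank_corner _ hb0, rank_corner _ hp0, hb1, hp1] at h1
    omega
  · intro h i j
    rcases i with _ | i
    · rw [rank_corner_zero_left]
      exact Nat.zero_le _
    rcases j with _ | j
    · rw [rank_corner_zero_right]
      exact Nat.zero_le _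
    rw [rank_corner _ hb0, rank_corner _ hp0, hb1, hp1]
    exact Nat.succ_le_succ (h i j)

theorem sci : S_SCI := by
  intro N x hx
  funext s
  induction s using Sym2.ind with
  | _ i j =>
    induction i using Fin.cases with
    | zero =>
      induction j using Fin.cases with
      | zero => rfl
      | succ j => rfl
    | succ i =>
      induction j using Fin.cases with
      | zero =>
        show x s(0, i.succ) = x s(i.succ, 0)
        rw [Sym2.eq_swap]
      | succ j =>
        show (x s(i.succ, j.succ) - x s(0, i.succ) * x s(0, j.succ) / x s(0, 0)) +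
          x s(0, i.succ) * x s(0, j.succ) / x s(0, 0) = x s(i.succ, j.succ)
        ring

end Pool.Agent.Q153.OG
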